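import Pool.Agent.Lib.MP_edb5be_nt.EX.Iface2
import Pool.Agent.Lib.MP_0a5adf_nt.H24.Split
import Pool.Agent.Lib.MP_0a5adf_nt.H26.Mass
import Pool.Agent.Lib.MP_0a5adf_nt.H37.Cat

/-!
Project EX (MP_edb5be_nt), module PHIW: the density `Phi` is a sum over words.
-/

set_option autoImplicit false

namespace Pool.Agent.Lib.MP_edb5be_nt.EX.H70

open Finset
open Pool.Agent.Lib.MP_0a5adf_nt.TP (Fam xz f Phi rk cat)

namespace H70Phiw

theorem xz_one (q a : ℕ) : xz q {a} = (2 : ZMod q)⁻¹ ^ a := by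
  unfold xz rk
  rw [sum_singleton]
  have : ({a} : Finset ℕ).filter (fun y => y < a) = ∅ := by
    rw [filter_singleton, if_neg (lt_irrefl a)]
  rw [this, card_empty, pow_zero, one_mul]

/-- Sums over the words of length `n + 1`. -/
theorem wds_succ (A n : ℕ) (g : List ℕ → ℝ) :
    ∑ u ∈ wds A (n + 1), g u = ∑ a ∈ Icc 1 A, ∑ u ∈ wds A n, g (a :: u) := by
  rw [wds, sum_biUnion]
  · refine sum_congr rfl fun a _ => ?_
    rw [sum_image]
    intro u _ v _ h
    exact (List.cons.inj h).2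
  · intro a _ b _ hab
    rw [Function.onFun, disjoint_left]
    intro u hu hv
    rw [mem_image] at hu hv
    obtain ⟨u1, -, h1⟩ := hu
    obtain ⟨u2, -, h2⟩ := hv
    exact hab (List.cons.inj (h1.trans h2.symm)).1

theorem main (q : ℕ) (hq : (2 : ZMod q) * (2 : ZMod q)⁻¹ = 1) (A : ℕ) :
    ∀ (n c : ℕ) (G : ZMod q → ℝ), c ≤ A →
    ∑ S ∈ Fam n c, G (xz q S) =
      ∑ u ∈ wds A n, if u.sum = c then G ((2 : ZMod q)⁻¹ ^ c * (cc u : ZMod q)) else 0 := by
  have hpow : ∀ k : ℕ, (2 : ZMod q) ^ k * (2 : ZMod q)⁻¹ ^ k = 1 := by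
    intro k
    rw [← mul_pow, hq, one_pow]
  intro n
  induction n with
  | zero =>
    intro c G hc
    rw [Pool.Agent.Lib.MP_0a5adf_nt.H26.fam_zero, wds, sum_singleton]
    by_cases h : c = 0
    · subst h
      rw [if_pos rfl, sum_singleton, List.sum_nil, if_pos rfl]
      simp [xz, cc]
    · rw [if_neg h, sum_empty, List.sum_nil, if_neg (fun h' => h h'.symm)]
  | succ n ih =>
    intro c G hc
    rw [Pool.Agent.Lib.MP_0a5adf_nt.H26.fam_succ Pool.Agent.Lib.MP_0a5adf_nt.H24.famsplit n c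
      (fun S => G (xz q S)), wds_succ]
    have hsub : Icc 1 c ⊆ Icc 1 A := Icc_subset_Icc_right hc
    rw [← sum_subset hsub]
    · refine sum_congr rfl fun a ha => ?_
      rw [mem_Icc] at ha
      have h1 : ∑ B ∈ Fam n (c - a), G (xz q (cat a {a} B)) =
          ∑ B ∈ Fam n (c - a), (fun x : ZMod q =>
            G ((2 : ZMod q)⁻¹ ^ a + 3 * (2 : ZMod q)⁻¹ ^ a * x)) (xz q B) := by
        refine sum_congr rfl fun B hB => ?_
        have hB' : B ⊆ Icc 1 (c - a) := by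
          unfold Fam at hB
          rw [mem_filter, mem_powersetCard] at hB
          exact hB.1.1
        have h2 := (Pool.Agent.Lib.MP_0a5adf_nt.H37.catSt a (c - a) {a} B
          (by rw [singleton_subset_iff, mem_Icc]; omega) hB').2.2.1 q
        rw [h2, xz_one, card_singleton, pow_one]
      rw [h1, ih (c - a) (fun x : ZMod q =>
        G ((2 : ZMod q)⁻¹ ^ a + 3 * (2 : ZMod q)⁻¹ ^ a * x)) (by omega)]
      refine sum_congr rfl fun u _ => ?_
      rw [List.sum_cons]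
      by_cases hu : u.sum = c - a
      · rw [if_pos hu, if_pos (by omega)]
        congr 1
        rw [cc]
        push_cast
        have h3 : (2 : ZMod q)⁻¹ ^ c = (2 : ZMod q)⁻¹ ^ a * (2 : ZMod q)⁻¹ ^ (c - a) := by
          rw [← pow_add]
          congr 1
          omega
        rw [h3, hu]
        have h4 := hpow (c - a)
        linear_combination (-(2 : ZMod q)⁻¹ ^ a) * h4
      · rw [if_neg hu, if_neg (by omega)]
    · intro a ha ha'
      rw [mem_Icc] at ha ha'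
      refine sum_eq_zero fun u _ => ?_
      rw [List.sum_cons, if_neg (by omega)]

theorem two_unit (m : ℕ) : (2 : ZMod (3 ^ m)) * (2 : ZMod (3 ^ m))⁻¹ = 1 := by
  have h : Nat.Coprime 2 (3 ^ m) := Nat.Coprime.pow_right m (by decide)
  have := ZMod.coe_mul_inv_eq_one 2 h
  exact_mod_cast this

theorem cond (m c : ℕ) (M : ℤ) (u : List ℕ) :
    (2 : ZMod (3 ^ m))⁻¹ ^ c * (cc u : ZMod (3 ^ m)) = (M : ZMod (3 ^ m)) ↔
      (3 : ℤ) ^ m ∣ 2 ^ c * M - cc u := by
  have h1 : (2 : ZMod (3 ^ m)) ^ c * (2 : ZMod (3 ^ m))⁻¹ ^ c = 1 := by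
    rw [← mul_pow, two_unit, one_pow]
  have h2 := ZMod.intCast_eq_intCast_iff_dvd_sub (cc u : ℤ) (2 ^ c * M) (3 ^ m)
  push_cast at h2
  rw [← h2]
  constructor
  · intro h
    rw [← h]
    linear_combination (-(cc u : ZMod (3 ^ m))) * h1
  · intro h
    rw [h]
    linear_combination (M : ZMod (3 ^ m)) * h1

end H70Phiw

open H70Phiw in
/-- PHIW. -/
theorem phiw : PhiWStatement := by
  intro m M
  unfold Phi f
  have h1 : ∀ c ∈ range (4 * m + 1),
      (((Fam m c).filter fun S => xz (3 ^ m) S = (M : ZMod (3 ^ m))).card : ℝ) / 2 ^ c =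
        ∑ u ∈ wds (4 * m) m, if u.sum = c then
          (if (3 : ℤ) ^ m ∣ 2 ^ u.sum * M - cc u then (1 : ℝ) / 2 ^ u.sum else 0) else 0 := by
    intro c hc
    rw [mem_range] at hc
    have h2 := main (3 ^ m) (two_unit m) (4 * m) m c
      (fun x => if x = (M : ZMod (3 ^ m)) then 1 else 0) (by omega)
    rw [← natCast_card_filter] at h2
    rw [h2, sum_div]
    refine sum_congr rfl fun u _ => ?_
    by_cases hu : u.sum = c
    · rw [if_pos hu, if_pos hu, hu]
      by_cases h3 : (3 : ℤ) ^ m ∣ 2 ^ c * M - cc u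
      · rw [if_pos h3, if_pos ((cond m c M u).2 h3)]
      · rw [if_neg h3, if_neg (fun h4 => h3 ((cond m c M u).1 h4)), zero_div]
    · rw [if_neg hu, if_neg hu, zero_div]
  have h3 : ∑ c ∈ range (4 * m + 1),
      (((Fam m c).filter fun S => xz (3 ^ m) S = (M : ZMod (3 ^ m))).card : ℝ) / 2 ^ c =
      ∑ u ∈ wds (4 * m) m, if u.sum ≤ 4 * m ∧ (3 : ℤ) ^ m ∣ 2 ^ u.sum * M - cc u then
        (1 : ℝ) / 2 ^ u.sum else 0 := by
    rw [sum_congr rfl h1, sum_comm]
    refine sum_congr rfl fun u _ => ?_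
    rw [sum_ite_eq]
    by_cases h4 : u.sum ≤ 4 * m
    · rw [if_pos (by rw [mem_range]; omega)]
      by_cases h5 : (3 : ℤ) ^ m ∣ 2 ^ u.sum * M - cc u
      · rw [if_pos h5, if_pos ⟨h4, h5⟩]
      · rw [if_neg h5, if_neg (fun h => h5 h.2)]
    · rw [if_neg (by rw [mem_range]; omega), if_neg (fun h => h4 h.1)]
  rw [sum_filter]
  calc (3 : ℝ) ^ m * ∑ c ∈ range (4 * m + 1),
        (((Fam m c).filter fun S => xz (3 ^ m) S = (M : ZMod (3 ^ m))).card : ℝ) / 2 ^ c
      = (3 : ℝ) ^ m * ∑ u ∈ wds (4 * m) m,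
          (if u.sum ≤ 4 * m ∧ (3 : ℤ) ^ m ∣ 2 ^ u.sum * M - cc u then
            (1 : ℝ) / 2 ^ u.sum else 0) := by rw [h3]
    _ = _ := by
        rw [mul_sum]
        refine sum_congr rfl fun u _ => ?_
        rw [mul_ite, mul_zero, mul_one_div]

end Pool.Agent.Lib.MP_edb5be_nt.EX.H70
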